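import Pool.Agent.Helper84.OV.Zero

/-!
# Project OV, packet FWR
-/

set_option autoImplicit false

namespace Pool.Agent.Helper13.OV.FWR

open Finset Pool.Agent.Helper84.OV

open scoped Polynomial

theorem dd_int_mul (U : ℤ) (f : PowerSeries ℚ) :
    dd ((U : PowerSeries ℚ) * f) = (U : PowerSeries ℚ) * dd f := by
  unfold dd
  rw [Derivation.leibniz, Derivation.map_intCast]
  simp

theorem PsiEE_ne {G : R2} {p q : ℤ} {Ψ : R2 →+* PowerSeries ℚ} (h : Br G p q Ψ) (hp : 2 ≤ p)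
    (hpq : p < q) : Ψ EE ≠ 0 := by
  intro h0
  have h1 := h.ev EE
  rw [h0, ev_EE, map_zero] at h1
  have h2 : (2 * p * q * (1 - p) * (1 - q) * (p - q) : ℤ) = 0 := by exact_mod_cast h1.symm
  have h3 : (2 * p * q * (1 - p) * (1 - q) * (p - q) : ℤ) ≠ 0 := by
    refine mul_ne_zero (mul_ne_zero (mul_ne_zero (mul_ne_zero (mul_ne_zero ?_ ?_) ?_) ?_) ?_) ?_ <;>
      omega
  exact h3 h2

theorem not_dvd_int {G : R2} (hG : 1 ≤ G.natDegree) {g : ℤ} (hg : g ≠ 0) : ¬ G ∣ (g : R2) := by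
  intro h
  have h1 : (g : R2) ≠ 0 := by exact_mod_cast hg
  have h2 := Polynomial.natDegree_le_of_dvd h h1
  rw [Polynomial.natDegree_intCast] at h2
  omega

theorem dvd_w12 (hCHT : S_CHT) (hKer : KerProp) (hWDT : S_WDT) (G : R2) (p q U : ℤ)
    (s n H : ℕ) (Ψ : R2 →+* PowerSeries ℚ) (uh vh : PowerSeries ℚ) (B : Fin 3 → R2)
    (hBr : Br G p q Ψ) (hUV : UV G p q Ψ uh vh) (hG : Irreducible G) (hG1 : 1 ≤ G.natDegree)
    (hGY : ev p q (Polynomial.derivative G) ≠ 0) (hp2 : 2 ≤ p) (hpq : p < q) (hpp : Prime p)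
    (hqp : Prime q) (hU : U = p ^ s ∨ U = -p ^ s)
    (hdeg : ∀ i j, (w2 B (naD G B) i j).natDegree ≤ n) (hnrm : ∀ i j, nrm (w2 B (naD G B) i j) ≤ H)
    (hW02 : w2 (ff Ψ uh vh B) (fun i => dd (ff Ψ uh vh B i)) 0 2 =
      -(U : PowerSeries ℚ) * w2 (ff Ψ uh vh B) (fun i => dd (ff Ψ uh vh B i)) 1 2)
    (hH : 2 * (H : ℤ) ^ 2 * (2 * nrm G) ^ (2 * n + 2) < U ^ 2) :
    G ∣ w2 B (naD G B) 1 2 := by
  by_contra hnd
  obtain ⟨-, h2, -⟩ := hWDT G p q Ψ uh vh B hBr hUV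
  have hEE := PsiEE_ne hBr hp2 hpq
  have e02 := h2 0 2
  have e12 := h2 1 2
  simp only [Matrix.cons_val_zero, Matrix.cons_val_one, Matrix.cons_val, one_mul] at e02 e12
  set w02 := w2 B (naD G B) 0 2 with hw02
  set w12 := w2 B (naD G B) 1 2 with hw12
  have hvh : vh ≠ 0 := by
    rintro rfl
    have := hUV.v0
    simp at this
  have k1 : Ψ w02 = -(U : PowerSeries ℚ) * uh * Ψ w12 := by
    refine mul_left_cancel₀ hvh ?_
    rw [← e02, hW02]
    linear_combination (-(U : PowerSeries ℚ)) * e12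
  have k2 := hUV.u2
  have k3 : Ψ (((q - p : ℤ) : R2) * (XX * (1 - YY) * w02 ^ 2) -
      ((U ^ 2 * (p * (q - 1)) : ℤ) : R2) * ((XX - YY) * w12 ^ 2)) = 0 := by
    simp only [map_sub, map_mul, map_pow, map_intCast] at k2 ⊢
    rw [k1]
    push_cast at k2 ⊢
    linear_combination (-(U : PowerSeries ℚ) ^ 2 * (Ψ w12) ^ 2) * k2
  have k4 := hKer G p q Ψ hBr hG hG1 hGY hp2 _ k3
  have hprime : Prime G := hG.prime
  have hevG : ev p q G = 0 := by
    have := hBr.ev G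
    rw [hBr.zero, map_zero] at this
    exact_mod_cast this.symm
  have hXY : ¬ G ∣ XX - YY := by
    rintro ⟨T, hT⟩
    have := congrArg (ev p q) hT
    rw [map_sub, map_mul, hevG, zero_mul, ev_XX, ev_YY] at this
    omega
  have hS2 : ¬ G ∣ (XX - YY) * w12 ^ 2 := by
    intro h
    rcases hprime.dvd_or_dvd h with h | h
    · exact hXY h
    · exact hnd (hprime.dvd_of_dvd_pow h)
  -- the common divisor
  have hcop : IsCoprime (q - p) (U ^ 2 * p) := by
    have h1 : IsCoprime (q - p) p := by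
      have h3 : IsCoprime p q := by
        refine (hpp.irreducible.coprime_iff_not_dvd).2 fun h => ?_
        have := (hpp.associated_of_dvd hqp h)
        rw [Int.associated_iff] at this
        omega
      have h4 : IsCoprime (q + p * (-1)) p := by
        exact (IsCoprime.add_mul_left_left_iff).2 h3.symm
      convert h4 using 1
      ring
    refine IsCoprime.mul_right (IsCoprime.pow_right ?_) h1
    rcases hU with rfl | rfl
    · exact h1.pow_right
    · exact h1.pow_right.neg_right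
  obtain ⟨g, b, e, hg0, hb, he, hbe⟩ : ∃ g b e : ℤ, g ≠ 0 ∧ q - p = g * b ∧ q - 1 = g * e ∧
      IsCoprime b e := by
    refine ⟨Int.gcd (q - p) (q - 1), (q - p) / Int.gcd (q - p) (q - 1),
      (q - 1) / Int.gcd (q - p) (q - 1), ?_, ?_, ?_, ?_⟩
    · intro h
      have := Int.gcd_eq_zero_iff.1 (by exact_mod_cast h : Int.gcd (q - p) (q - 1) = 0)
      omega
    · rw [Int.mul_ediv_cancel' (Int.gcd_dvd_left _ _)]
    · rw [Int.mul_ediv_cancel' (Int.gcd_dvd_right _ _)]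
    · rw [Int.isCoprime_iff_gcd_eq_one]
      refine Int.gcd_ediv_gcd_ediv_gcd (Nat.pos_of_ne_zero fun h => ?_)
      have := Int.gcd_eq_zero_iff.1 h
      omega
  have hab : IsCoprime (U ^ 2 * p * e) b := by
    refine IsCoprime.mul_left ?_ hbe.symm
    refine IsCoprime.of_isCoprime_of_dvd_right hcop.symm ⟨g, ?_⟩
    rw [hb, mul_comm]
  have hU0 : U ≠ 0 := by
    have : p ^ s ≠ 0 := pow_ne_zero _ (by omega)
    rcases hU with rfl | rfl
    · exact this
    · exact neg_ne_zero.2 this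
  have he0 : e ≠ 0 := by
    rintro rfl
    omega
  have hb0 : b ≠ 0 := by
    rintro rfl
    omega
  have ha0 : U ^ 2 * p * e ≠ 0 :=
    mul_ne_zero (mul_ne_zero (pow_ne_zero _ hU0) (by omega)) he0
  have k5 : G ∣ (b : R2) * (XX * (1 - YY) * w02 ^ 2) -
      ((U ^ 2 * p * e : ℤ) : R2) * ((XX - YY) * w12 ^ 2) := by
    have h3 : (g : R2) * ((b : R2) * (XX * (1 - YY) * w02 ^ 2) -
        ((U ^ 2 * p * e : ℤ) : R2) * ((XX - YY) * w12 ^ 2)) = ((q - p : ℤ) : R2) *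
        (XX * (1 - YY) * w02 ^ 2) -
        ((U ^ 2 * (p * (q - 1)) : ℤ) : R2) * ((XX - YY) * w12 ^ 2) := by
      rw [hb, he]
      push_cast
      ring
    rw [← h3] at k4
    exact (hprime.dvd_or_dvd k4).resolve_left (not_dvd_int hG1 hg0)
  have hd1 : (XX * (1 - YY) * w02 ^ 2).natDegree ≤ 2 * n + 1 := by
    have h3 : (XX * (1 - YY)).natDegree ≤ 1 := by
      unfold XX YY
      compute_degree
    have h4 : (w02 ^ 2).natDegree ≤ 2 * n :=
      Polynomial.natDegree_pow_le.trans (Nat.mul_le_mul_left _ (hdeg 0 2))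
    exact Polynomial.natDegree_mul_le.trans (by omega)
  have hd2 : ((XX - YY) * w12 ^ 2).natDegree ≤ 2 * n + 1 := by
    have h3 : (XX - YY).natDegree ≤ 1 := by
      unfold XX YY
      compute_degree
    have h4 : (w12 ^ 2).natDegree ≤ 2 * n :=
      Polynomial.natDegree_pow_le.trans (Nat.mul_le_mul_left _ (hdeg 1 2))
    exact Polynomial.natDegree_mul_le.trans (by omega)
  have k6 := (hCHT G _ _ (U ^ 2 * p * e) b (2 * n + 1) hG hG1 hd1 hd2 hab ha0 hb0 hS2 k5).1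
  have hn1 : nrm (XX * (1 - YY) * w02 ^ 2) ≤ 2 * H ^ 2 := by
    have h3 : nrm (XX * (1 - YY)) ≤ 2 := by
      refine (nrm_mul _ _).trans ?_
      rw [nrm_XX, one_mul]
      refine (nrm_sub _ _).trans ?_
      rw [nrm_one, nrm_YY]
    have h4 : nrm (w02 ^ 2) ≤ H ^ 2 :=
      (nrm_pow _ _).trans (Nat.pow_le_pow_left (hnrm 0 2) _)
    exact (nrm_mul _ _).trans (Nat.mul_le_mul h3 h4)
  have k7 : (U ^ 2 * p * e).natAbs ≤ 2 * H ^ 2 * (2 * nrm G) ^ (2 * n + 2) :=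
    k6.trans (Nat.mul_le_mul_right _ hn1)
  have k8 : U ^ 2 ≤ ((U ^ 2 * p * e).natAbs : ℤ) := by
    rw [Int.natCast_natAbs, abs_mul, abs_mul, abs_of_nonneg (sq_nonneg U)]
    have h5 : 1 ≤ |e| := Int.one_le_abs he0
    have h6 : 1 ≤ |p| := Int.one_le_abs (by omega)
    have h7 : 0 ≤ U ^ 2 := sq_nonneg U
    nlinarith [mul_le_mul h6 h5 zero_le_one (zero_le_one.trans h6)]
  have k9 : ((U ^ 2 * p * e).natAbs : ℤ) ≤ 2 * (H : ℤ) ^ 2 * (2 * nrm G) ^ (2 * n + 2) := by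
    exact_mod_cast k7
  exact absurd (k8.trans k9) (not_le.2 hH)

/-- **FWR**. -/
theorem t : S_FWR := by
  intro hCHT hKer hWDT G p q U V s n H Ψ uh vh B hBr hUV hG hG1 hGY hp2 hpq hpp hqp hU hdeg hnrm
    hrel hH
  have hrel0 : ff Ψ uh vh B 0 = -(U : PowerSeries ℚ) * ff Ψ uh vh B 1 -
      (V : PowerSeries ℚ) * ff Ψ uh vh B 2 := by
    simp only [map_intCast] at hrel
    linear_combination hrel
  have hrel1 : dd (ff Ψ uh vh B 0) = -(U : PowerSeries ℚ) * dd (ff Ψ uh vh B 1) -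
      (V : PowerSeries ℚ) * dd (ff Ψ uh vh B 2) := by
    have h1 : dd (ff Ψ uh vh B 0) = dd (((-U : ℤ) : PowerSeries ℚ) * ff Ψ uh vh B 1 -
      (V : PowerSeries ℚ) * ff Ψ uh vh B 2) := by
      rw [hrel0]
      push_cast
      rfl
    rw [h1]
    unfold dd
    rw [map_sub]
    change dd (((-U : ℤ) : PowerSeries ℚ) * _) - dd ((V : PowerSeries ℚ) * _) = _
    rw [dd_int_mul, dd_int_mul]
    push_cast
    rfl
  have hW02 : w2 (ff Ψ uh vh B) (fun i => dd (ff Ψ uh vh B i)) 0 2 =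
      -(U : PowerSeries ℚ) * w2 (ff Ψ uh vh B) (fun i => dd (ff Ψ uh vh B i)) 1 2 := by
    unfold w2
    simp only
    rw [hrel1, hrel0]
    ring
  have hW01 : w2 (ff Ψ uh vh B) (fun i => dd (ff Ψ uh vh B i)) 0 1 =
      (V : PowerSeries ℚ) * w2 (ff Ψ uh vh B) (fun i => dd (ff Ψ uh vh B i)) 1 2 := by
    unfold w2
    simp only
    rw [hrel1, hrel0]
    ring
  have hd := dvd_w12 hCHT hKer hWDT G p q U s n H Ψ uh vh B hBr hUV hG hG1 hGY hp2 hpq hpp hqp hU
    hdeg hnrm hW02 hH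
  have hW12 : w2 (ff Ψ uh vh B) (fun i => dd (ff Ψ uh vh B i)) 1 2 = 0 := by
    obtain ⟨-, h2, -⟩ := hWDT G p q Ψ uh vh B hBr hUV
    have h3 := h2 1 2
    have h4 : Ψ (w2 B (naD G B) 1 2) = 0 := by
      obtain ⟨T, hT⟩ := hd
      rw [hT, map_mul, hBr.zero, zero_mul]
    rw [h4, mul_zero] at h3
    exact (mul_eq_zero.1 h3).resolve_right (PsiEE_ne hBr hp2 hpq)
  have hanti : ∀ i j, w2 (ff Ψ uh vh B) (fun i => dd (ff Ψ uh vh B i)) i j =
      -w2 (ff Ψ uh vh B) (fun i => dd (ff Ψ uh vh B i)) j i := fun i j => by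
    unfold w2
    ring
  have hself : ∀ i, w2 (ff Ψ uh vh B) (fun i => dd (ff Ψ uh vh B i)) i i = 0 := fun i => by
    unfold w2
    ring
  rw [hW12, mul_zero] at hW02 hW01
  intro i j
  fin_cases i <;> fin_cases j
  · exact hself 0
  · exact hW01
  · exact hW02
  · exact (hanti 1 0).trans (by rw [hW01, neg_zero])
  · exact hself 1
  · exact hW12
  · exact (hanti 2 0).trans (by rw [hW02, neg_zero])
  · exact (hanti 2 1).trans (by rw [hW12, neg_zero])
  · exact hself 2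

end Pool.Agent.Helper13.OV.FWR
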