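import Pool.Agent.Helper29.OV.Base1

/-!
# Packet OV-GAP (MP_81e84b_lc)
-/

namespace Pool.Agent.Helper13.OV

open Pool.Agent.Helper29.OV

/-- homogeneity for finitely many predicates -/
theorem ramsey_list {𝓜 : Set (Set ℕ)} (h : Closed 𝓜) (K : ℕ) {ι : Type}
    (P : ι → List ℕ → Prop) (hP : ∀ i, D 𝓜 (P i)) (is : List ι) :
    ∀ H₀ : Set ℕ, H₀ ∈ 𝓜 → H₀.Infinite → ∃ H ⊆ H₀, H ∈ 𝓜 ∧ H.Infinite ∧
      ∀ i ∈ is, (∀ l, Inc H K l → P i l) ∨ (∀ l, Inc H K l → ¬ P i l) := by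
  induction is with
  | nil => exact fun H₀ h₀ hi => ⟨H₀, subset_rfl, h₀, hi, by simp⟩
  | cons j is ih =>
    intro H₀ h₀ hi
    obtain ⟨H₁, h1, h2, h3, h4⟩ := ih H₀ h₀ hi
    obtain ⟨H, g1, g2, g3, g4⟩ := ramsey h K H₁ h2 h3 (P j) (hP j)
    refine ⟨H, g1.trans h1, g2, g3, fun i hmem => ?_⟩
    have hInc : ∀ l, Inc H K l → Inc H₁ K l := fun l hl => ⟨hl.1, hl.2.1, fun x hx => g1 (hl.2.2 x hx)⟩
    rcases List.mem_cons.1 hmem with rfl | hmem
    · exact g4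
    · rcases h4 i hmem with h5 | h5
      · exact Or.inl fun l hl => h5 l (hInc l hl)
      · exact Or.inr fun l hl => h5 l (hInc l hl)

theorem ramsey_fin {𝓜 : Set (Set ℕ)} (h : Closed 𝓜) (K : ℕ) {ι : Type} [Finite ι]
    (P : ι → List ℕ → Prop) (hP : ∀ i, D 𝓜 (P i)) (H₀ : Set ℕ) (h₀ : H₀ ∈ 𝓜)
    (hi : H₀.Infinite) :
    ∃ H ⊆ H₀, H ∈ 𝓜 ∧ H.Infinite ∧
      ∀ i, (∀ l, Inc H K l → P i l) ∨ (∀ l, Inc H K l → ¬ P i l) := by
  classical
  have := Fintype.ofFinite ι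
  obtain ⟨H, h1, h2, h3, h4⟩ := ramsey_list h K P hP (Finset.univ : Finset ι).toList H₀ h₀ hi
  exact ⟨H, h1, h2, h3, fun i => h4 i (by simp)⟩

/-- the product of the first `n` values after `x` -/
def gp {Λ M : Type} [Monoid M] (lab : ℕ → Λ) (ν : Λ → M) (x n : ℕ) : M :=
  ((List.range n).map fun t => ν (lab (x + 1 + t))).prod

theorem gp_zero {Λ M : Type} [Monoid M] (lab : ℕ → Λ) (ν : Λ → M) (x : ℕ) :
    gp lab ν x 0 = 1 := rfl

theorem gp_succ {Λ M : Type} [Monoid M] (lab : ℕ → Λ) (ν : Λ → M) (x n : ℕ) :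
    gp lab ν x (n + 1) = gp lab ν x n * ν (lab (x + 1 + n)) := by
  unfold gp
  rw [List.range_succ, List.map_append, List.prod_append]
  simp

/-- the labels, coded by numbers less than `N`, are definable -/
theorem lab_DF {𝓜 : Set (Set ℕ)} (h : Closed 𝓜) {Λ : Type} [Finite Λ] (lab : ℕ → Λ)
    (hlab : ∀ c, D 𝓜 fun p : ℕ => lab p = c) {N : ℕ} (e : Λ ≃ Fin N) :
    DF 𝓜 fun p : ℕ => e (lab p) := by
  have h1 : D 𝓜 fun q : ℕ × Fin N => ∃ c : Λ, lab q.1 = c ∧ e c = q.2 := by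
    refine D.exFin h fun c => D.and h (D.comp h (hlab c) Primrec.fst) (D.of_primrec h ?_)
    exact Primrec.eq.comp (Primrec.const (e c)) Primrec.snd
  refine D.congr h1 fun q => ?_
  constructor
  · rintro ⟨c, hc, hc2⟩
    show e (lab q.1) = q.2
    rw [hc, hc2]
  · intro h2
    exact ⟨lab q.1, rfl, h2⟩

theorem gp_DF {𝓜 : Set (Set ℕ)} (h : Closed 𝓜) {Λ : Type} [Finite Λ] (lab : ℕ → Λ)
    (hlab : ∀ c, D 𝓜 fun p : ℕ => lab p = c) {M : Type} [Monoid M] [Finite M] (ν : Λ → M)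
    {N : ℕ} (e : M ≃ Fin N) :
    DF 𝓜 fun p : ℕ × ℕ => e (gp lab ν p.1 p.2) := by
  obtain ⟨N', ⟨e'⟩⟩ := Finite.exists_equiv_fin Λ
  have hL := lab_DF h lab hlab e'
  have hg : DF 𝓜 fun q : ℕ × ℕ × Fin N => e (e.symm q.2.2 * ν (lab (q.1 + 1 + q.2.1))) := by
    have h1 : DF 𝓜 fun q : ℕ × ℕ × Fin N => (q.2.2, e' (lab (q.1 + 1 + q.2.1))) := by
      refine DF.pair h (DF.of_primrec h (Primrec.snd.comp Primrec.snd)) ?_
      refine DF.comp h hL (DF.of_primrec h ?_)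
      exact Primrec.nat_add.comp (Primrec.succ.comp Primrec.fst) (Primrec.fst.comp Primrec.snd)
    have h2 : DF 𝓜 fun r : Fin N × Fin N' => e (e.symm r.1 * ν (e'.symm r.2)) :=
      DF.of_primrec h (Primrec.dom_finite _)
    have h3 := DF.comp h h2 h1
    refine D.congr h3 fun q => ?_
    simp
  have hf : DF 𝓜 fun _ : ℕ => e (1 : M) := DF.of_primrec h (Primrec.const _)
  have h4 := DF.nat_rec h hf hg
  have h5 : (fun p : ℕ × ℕ => e (gp lab ν p.1 p.2)) =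
      fun p : ℕ × ℕ => (Nat.rec (e (1 : M)) (fun y ih =>
        e (e.symm ih * ν (lab (p.1 + 1 + y)))) p.2 : Fin N) := by
    funext p
    obtain ⟨x, n⟩ := p
    induction n with
    | zero => rfl
    | succ n ih =>
      show e (gp lab ν x (n + 1)) = e (e.symm (Nat.rec (e (1 : M)) (fun y ih =>
        e (e.symm ih * ν (lab (x + 1 + y)))) n) * ν (lab (x + 1 + n)))
      rw [gp_succ, ← ih, Equiv.symm_apply_apply]
  rw [h5]
  exact h4

/-- PACKET GAP -/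
theorem exists_gap {𝓜 : Set (Set ℕ)} (h : Closed 𝓜) (H₀ : Set ℕ) (h₀ : H₀ ∈ 𝓜)
    (hi : H₀.Infinite) {Λ : Type} [Finite Λ] (lab : ℕ → Λ) (hlab : ∀ c, D 𝓜 fun p : ℕ => lab p = c)
    {M : Type} [Monoid M] [Finite M] (ν : Λ → M) :
    ∃ H ⊆ H₀, H ∈ 𝓜 ∧ H.Infinite ∧ (∃ c, ∀ p ∈ H, lab p = c) ∧ ∃ g : M, ∀ x ∈ H, ∀ y ∈ H, x < y →
      ((List.range (y - x - 1)).map fun t => ν (lab (x + 1 + t))).prod = g := by
  obtain ⟨H₁, h1, h2, h3, h4⟩ := ramsey_fin h 1 (fun (c : Λ) (l : List ℕ) => lab l.headI = c)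
    (fun c => D.comp h (hlab c) Primrec.list_headI) H₀ h₀ hi
  obtain ⟨N, ⟨e⟩⟩ := Finite.exists_equiv_fin M
  have hD : ∀ g : M, D 𝓜 fun l : List ℕ =>
      gp lab ν l.headI (l.tail.headI - l.headI - 1) = g := by
    intro g
    have h5 : DF 𝓜 fun l : List ℕ => (l.headI, l.tail.headI - l.headI - 1) := by
      refine DF.of_primrec h (Primrec.pair Primrec.list_headI ?_)
      exact Primrec.nat_sub.comp (Primrec.nat_sub.comp
        (Primrec.list_headI.comp Primrec.list_tail) Primrec.list_headI) (Primrec.const 1)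
    have h6 := DF.comp h (gp_DF h lab hlab ν e) h5
    have h7 := DF.eq h h6 (DF.of_primrec h (Primrec.const (e g)))
    refine D.congr h7 fun l => ?_
    exact e.injective.eq_iff
  obtain ⟨H, g1, g2, g3, g4⟩ := ramsey_fin h 2
    (fun (g : M) (l : List ℕ) => gp lab ν l.headI (l.tail.headI - l.headI - 1) = g) hD H₁ h2 h3
  refine ⟨H, g1.trans h1, g2, g3, ?_, ?_⟩
  · obtain ⟨x, hx⟩ := h3.nonempty
    have hInc : ∀ y ∈ H₁, Inc H₁ 1 [y] := fun y hy => ⟨rfl, by simp, by simpa using hy⟩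
    refine ⟨lab x, fun p hp => ?_⟩
    rcases h4 (lab x) with h5 | h5
    · exact h5 [p] (hInc p (g1 hp))
    · exact absurd rfl (h5 [x] (hInc x hx))
  · obtain ⟨x, hx⟩ := g3.nonempty
    obtain ⟨y, hy, hxy⟩ := g3.exists_gt x
    have hInc : ∀ x ∈ H, ∀ y ∈ H, x < y → Inc H 2 [x, y] := by
      intro x hx y hy hxy
      refine ⟨rfl, by simpa using hxy, ?_⟩
      intro z hz
      simp only [List.mem_cons, List.not_mem_nil, or_false] at hz
      rcases hz with rfl | rfl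
      · exact hx
      · exact hy
    refine ⟨gp lab ν x (y - x - 1), fun x' hx' y' hy' hxy' => ?_⟩
    rcases g4 (gp lab ν x (y - x - 1)) with h5 | h5
    · exact h5 [x', y'] (hInc x' hx' y' hy' hxy')
    · exact absurd rfl (h5 [x, y] (hInc x hx y hy hxy))

end Pool.Agent.Helper13.OV
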